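import Pool.Agent.ISO.StmtsD

/-! # Row DMX of squad ISO -/

set_option autoImplicit false
set_option linter.unusedSectionVars false

namespace Pool.Agent.ISO.H22

open MvPolynomial Pool.Agent.Helper32_OMP

section

variable {k σ : Type} [Field k] [Fintype σ]

theorem mx_mul (a b : ℕ) (x y : MvPolynomial σ k) (hx : x ∈ Mx k σ a) (hy : y ∈ Mx k σ b) :
    x * y ∈ Mx k σ (a + b) := by
  classical
  intro β hβ
  rw [coeff_mul]
  refine Finset.sum_eq_zero fun q hq => ?_
  have h1 : q.1 + q.2 = β := Finset.HasAntidiagonal.mem_antidiagonal.1 hq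
  have h2 : q.1.degree + q.2.degree = β.degree := by rw [← h1, map_add]
  by_cases h3 : q.1.degree < a
  · rw [hx q.1 h3, zero_mul]
  · have h4 : q.2.degree < b := by omega
    rw [hy q.2 h4, mul_zero]

theorem mx_one (x : MvPolynomial σ k) : x ∈ Mx k σ 1 ↔ constantCoeff x = 0 := by
  constructor
  · intro h
    rw [constantCoeff_eq]
    exact h 0 (by simp)
  · intro h β hβ
    have h1 : β = 0 := (Finsupp.degree_eq_zero_iff β).1 (by omega)
    rw [h1, ← constantCoeff_eq, h]

theorem mx_mono_pow (β : σ →₀ ℕ) : ∀ c : k, monomial β c ∈ Mx k σ 1 ^ β.degree := by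
  induction β using Finsupp.induction_linear with
  | zero =>
    intro c
    simp
  | add f g hf hg =>
    intro c
    have h1 : monomial (f + g) c = monomial f c * monomial g 1 := by
      rw [monomial_mul, mul_one]
    rw [h1, map_add, pow_add]
    exact Ideal.mul_mem_mul (hf c) (hg 1)
  | single l n =>
    intro c
    have h1 : monomial (Finsupp.single l n) c = C c * X l ^ n := by
      rw [C_mul_X_pow_eq_monomial]
    rw [h1, Finsupp.degree_single]
    refine Ideal.mul_mem_left _ _ (Ideal.pow_mem_pow ?_ n)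
    rw [mx_one, constantCoeff_X]

end

/-- Row **DMX** -/
theorem dmx : DmxStmt := by
  intro k σ _ _
  refine ⟨fun a b x y hx hy => mx_mul a b x y hx hy, fun a b hab x hx β hβ =>
    hx β (lt_of_lt_of_le hβ hab), fun e x hx => ?_, mx_one⟩
  rw [x.as_sum]
  refine Submodule.sum_mem _ fun β hβ => ?_
  have h1 : e ≤ β.degree := by
    by_contra h2
    exact (mem_support_iff.1 hβ) (hx β (by omega))
  exact Ideal.pow_le_pow_right h1 (mx_mono_pow β _)

end Pool.Agent.ISO.H22
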