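import Pool.Agent.ISO.StmtsD

/-! # Row DNW of squad ISO -/

set_option autoImplicit false
set_option linter.unusedSectionVars false

namespace Pool.Agent.ISO.H22

open MvPolynomial Pool.Agent.Helper32_OMP

theorem dnw (hM : DmxStmt) (hT : DtyStmt) (hS : DstStmt) : DnwStmt := by
  classical
  intro k σ ι _ _ _ f g p K h hA ψ u hψ hu m hm hE
  obtain ⟨hM1, hM2, hM3, hM4⟩ := hM k σ
  have hr : ∀ j, g j - u j * aeval ψ (f j) ∈ Mx k σ (K + m) := by
    intro j
    have h1 := eqm_iff_mx.1 (hE j)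
    have h2 := (Mx k σ (K + m)).neg_mem h1
    rwa [neg_sub] at h2
  obtain ⟨a, b, ha, hb, hab⟩ := hS k σ ι f p K h hA ψ hψ m _ hr
  have hK := hA.1
  have hb2 : ∀ l (β : σ →₀ ℕ), β.degree < 2 → coeff β (b l) = 0 := by
    intro l β hβ
    exact hb l β (by omega)
  refine ⟨fun l => ψ l + b l, fun j => u j + u j * a j, ⟨fun l => ?_, ?_⟩, fun j => ?_, fun j => ?_⟩
  · have h1 : constantCoeff (b l) = 0 := by
      rw [constantCoeff_eq]
      exact hb2 l 0 (by simp)
    rw [map_add, h1, add_zero]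
    exact hψ.1 l
  · have h1 : (fun l j : σ => coeff (Finsupp.single j 1) (ψ l + b l)) =
        fun l j : σ => coeff (Finsupp.single j 1) (ψ l) := by
      funext l j
      rw [coeff_add, hb2 l _ (by rw [Finsupp.degree_single]; omega), add_zero]
    rw [h1]
    exact hψ.2
  · have h1 : constantCoeff (a j) = 0 := (hM4 _).1 (hM2 1 m (by omega) (ha j))
    rw [map_add, map_mul, h1, mul_zero, add_zero]
    exact hu j
  · refine eqm_iff_mx.2 ?_
    have hX := hT k σ (f j) ψ b m hb
    have hX' := hM2 (K + m + 1) (2 * m) (by omega) hX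
    have hL : ∑ l, b l * aeval ψ (pderiv l (f j)) ∈ Mx k σ m :=
      Ideal.sum_mem _ fun l _ => Ideal.mul_mem_right _ _ (hb l)
    have haL := hM1 m m _ _ (ha j) hL
    have haL' := hM2 (K + m + 1) (m + m) (by omega) haL
    have hu1 : u j - 1 ∈ Mx k σ 1 := (hM4 _).2 (by rw [map_sub, hu j, map_one, sub_self])
    have hur := hM1 1 (K + m) _ _ hu1 (hr j)
    rw [add_comm 1 (K + m)] at hur
    have hY := hab j
    set F := aeval ψ (f j)
    set L := ∑ l, b l * aeval ψ (pderiv l (f j))
    set F' := aeval (fun l => ψ l + b l) (f j)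
    have h1 : (u j + u j * a j) * F' - g j = u j * (1 + a j) * (F' - F - L) -
        u j * (g j - u j * F - (a j * F + L)) + (u j - 1) * (g j - u j * F) + u j * (a j * L) := by
      ring
    rw [h1]
    refine Ideal.add_mem _ (Ideal.add_mem _ (Ideal.sub_mem _ ?_ ?_) hur) ?_
    · exact Ideal.mul_mem_left _ _ hX'
    · exact Ideal.mul_mem_left _ _ hY
    · exact Ideal.mul_mem_left _ _ haL'

end Pool.Agent.ISO.H22
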