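import Pool.Agent.ISO.StmtsD

/-! # Row DST of squad ISO -/

set_option autoImplicit false
set_option linter.unusedSectionVars false

namespace Pool.Agent.ISO.H22

open MvPolynomial Pool.Agent.Helper32_OMP

section

variable {k σ ι : Type} [Field k] [Fintype σ] [Fintype ι]

/-- `w` times the vector `c` times `h(ψ)` is in the image of the transported matrix -/
def Gd (f : ι → MvPolynomial σ k) (h : MvPolynomial σ k) (ψ : σ → MvPolynomial σ k)
    (w : MvPolynomial σ k) : Prop :=
  ∀ c : ι → MvPolynomial σ k, ∃ (a : ι → MvPolynomial σ k) (b : σ → MvPolynomial σ k),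
    ∀ j, aeval ψ h * w * c j = a j * aeval ψ (f j) + ∑ l, b l * aeval ψ (pderiv l (f j))

variable {f : ι → MvPolynomial σ k} {h : MvPolynomial σ k} {ψ : σ → MvPolynomial σ k}

theorem Gd.zero : Gd f h ψ 0 := fun c => ⟨0, 0, fun j => by simp⟩

theorem Gd.add {w w' : MvPolynomial σ k} (hw : Gd f h ψ w) (hw' : Gd f h ψ w') :
    Gd f h ψ (w + w') := by
  intro c
  obtain ⟨a, b, h1⟩ := hw c
  obtain ⟨a', b', h2⟩ := hw' c
  refine ⟨fun j => a j + a' j, fun l => b l + b' l, fun j => ?_⟩
  have h3 : aeval ψ h * (w + w') * c j = aeval ψ h * w * c j + aeval ψ h * w' * c j := by ring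
  rw [h3, h1, h2, add_mul]
  simp only [add_mul, Finset.sum_add_distrib]
  ring

theorem Gd.mul {w : MvPolynomial σ k} (r : MvPolynomial σ k) (hw : Gd f h ψ w) :
    Gd f h ψ (r * w) := by
  intro c
  obtain ⟨a, b, h1⟩ := hw c
  refine ⟨fun j => r * a j, fun l => r * b l, fun j => ?_⟩
  have h3 : aeval ψ h * (r * w) * c j = r * (aeval ψ h * w * c j) := by ring
  rw [h3, h1, mul_add, Finset.mul_sum]
  congr 1
  · ring
  · exact Finset.sum_congr rfl fun l _ => by ring

theorem xp_add {p : σ → k} (α : σ →₀ ℕ) (l : σ) :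
    xp p (α + Finsupp.single l 1) = xp p α * (X l - C (p l)) := by
  classical
  unfold xp
  simp only [Finsupp.add_apply, pow_add, Finset.prod_mul_distrib]
  congr 1
  rw [Finset.prod_eq_single l]
  · rw [Finsupp.single_eq_same, pow_one]
  · intro b _ hb
    rw [Finsupp.single_apply, if_neg (Ne.symm hb), pow_zero]
  · intro h
    exact absurd (Finset.mem_univ _) h

theorem xp_zero {p : σ → k} : xp p (0 : σ →₀ ℕ) = 1 := by
  unfold xp
  simp

theorem Gd.base {p : σ → k} {K : ℕ} (hA : Ann f p K h) {α : σ →₀ ℕ} (hα : α.degree = K) :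
    Gd f h ψ (aeval ψ (xp p α)) := by
  classical
  intro c
  have h1 := fun i : ι => hA.2.2 α hα (fun j => if j = i then 1 else 0)
  choose a b hab using h1
  refine ⟨fun j => ∑ i, c i * aeval ψ (a i j), fun l => ∑ i, c i * aeval ψ (b i l), fun j => ?_⟩
  have h2 : ∀ i, c i * (aeval ψ (h * xp p α) * (if j = i then 1 else 0)) =
      c i * aeval ψ (a i j) * aeval ψ (f j) +
        ∑ l, c i * aeval ψ (b i l) * aeval ψ (pderiv l (f j)) := by
    intro i
    have h4 : aeval ψ (if j = i then (1 : MvPolynomial σ k) else 0) = if j = i then 1 else 0 := by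
      split_ifs <;> simp
    have h3 : aeval ψ (h * xp p α) * (if j = i then 1 else 0) = aeval ψ (a i j) * aeval ψ (f j) +
        ∑ l, aeval ψ (b i l) * aeval ψ (pderiv l (f j)) := by
      have h5 := congrArg (aeval ψ) (hab i j)
      simp only [map_mul, map_add, map_sum, h4] at h5 ⊢
      exact h5
    rw [h3, mul_add, Finset.mul_sum]
    congr 1
    · ring
    · refine Finset.sum_congr rfl fun l _ => ?_
      ring
  have h3 : aeval ψ h * aeval ψ (xp p α) * c j =
      ∑ i, c i * (aeval ψ (h * xp p α) * (if j = i then 1 else 0)) := by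
    rw [Finset.sum_eq_single j]
    · rw [if_pos rfl, map_mul]
      ring
    · intro i _ hi
      rw [if_neg (Ne.symm hi), mul_zero, mul_zero]
    · intro hj
      exact absurd (Finset.mem_univ _) hj
  rw [h3, Finset.sum_congr rfl fun i _ => h2 i, Finset.sum_add_distrib, Finset.sum_mul]
  congr 1
  rw [Finset.sum_comm]
  refine Finset.sum_congr rfl fun l _ => ?_
  rw [Finset.sum_mul]

theorem Gd.pow_aux {p : σ → k} {K : ℕ} (hA : Ann f p K h) (n : ℕ) (hn : n ≤ K) :
    ∀ w ∈ Ideal.span (Set.range fun l => ψ l - C (p l)) ^ n, ∀ α : σ →₀ ℕ, α.degree = K - n →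
      Gd f h ψ (w * aeval ψ (xp p α)) := by
  induction n with
  | zero =>
    intro w _ α hα
    exact (Gd.base hA (by simpa using hα)).mul w
  | succ n ih =>
    intro w hw α hα
    have ih' := ih (by omega)
    rw [pow_succ] at hw
    refine Submodule.mul_induction_on (C := fun w => Gd f h ψ (w * aeval ψ (xp p α))) hw
      (fun x hx y hy => ?_) (fun x y h1 h2 => ?_)
    · refine Submodule.span_induction
        (p := fun y _ => Gd f h ψ (x * y * aeval ψ (xp p α))) ?_ ?_ ?_ ?_ hy
      · rintro _ ⟨l, rfl⟩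
        have h1 := ih' x hx (α + Finsupp.single l 1) (by
          rw [map_add, Finsupp.degree_single, hα]
          omega)
        have h2 : x * aeval ψ (xp p (α + Finsupp.single l 1)) =
            x * (ψ l - C (p l)) * aeval ψ (xp p α) := by
          rw [xp_add, map_mul, map_sub, aeval_X]
          have h3 : aeval ψ (C (p l)) = (C (p l) : MvPolynomial σ k) := by
            rw [aeval_C]
            rfl
          rw [h3]
          ring
        rw [h2] at h1
        exact h1
      · have h1 : x * 0 * aeval ψ (xp p α) = 0 := by ring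
        rw [h1]
        exact Gd.zero
      · intro y z _ _ h1 h2
        have h3 : x * (y + z) * aeval ψ (xp p α) =
            x * y * aeval ψ (xp p α) + x * z * aeval ψ (xp p α) := by ring
        rw [h3]
        exact h1.add h2
      · intro r y _ h1
        have h3 : x * (r • y) * aeval ψ (xp p α) = r * (x * y * aeval ψ (xp p α)) := by
          rw [smul_eq_mul]
          ring
        rw [h3]
        exact h1.mul r
    · rw [add_mul]
      exact h1.add h2

theorem Gd.pow {p : σ → k} {K : ℕ} (hA : Ann f p K h) {w : MvPolynomial σ k}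
    (hw : w ∈ Ideal.span (Set.range fun l => ψ l - C (p l)) ^ K) : Gd f h ψ w := by
  have h1 := Gd.pow_aux hA K le_rfl w hw 0 (by simp)
  rwa [xp_zero, map_one, mul_one] at h1

end

theorem dst (_ : DimStmt) (hM : DmxStmt) (hG : DgrStmt) : DstStmt := by
  classical
  intro k σ ι _ _ _ f p K h hA ψ hψ m r hr
  obtain ⟨hM1, hM2, hM3, hM4⟩ := hM k σ
  set 𝔞 : Ideal (MvPolynomial σ k) := Ideal.span (Set.range fun l => ψ l - C (p l)) with h𝔞
  have ha1 : 𝔞 ≤ Mx k σ 1 := by
    rw [h𝔞, Ideal.span_le]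
    rintro _ ⟨l, rfl⟩
    refine (hM4 _).2 ?_
    rw [map_sub, hψ.1 l, constantCoeff_C, sub_self]
  have ham : ∀ m, 𝔞 ^ m ≤ Mx k σ m := by
    intro m
    induction m with
    | zero =>
      intro x _
      rw [mem_Mx]
      intro β hβ
      exact absurd hβ (by omega)
    | succ m ih =>
      rw [pow_succ]
      exact Ideal.mul_le.2 fun x hx y hy => hM1 _ _ _ _ (ih hx) (ha1 hy)
  -- (ii)
  have h2 : ∀ w ∈ 𝔞 ^ (K + m), ∀ c : ι → MvPolynomial σ k,
      ∃ (a : ι → MvPolynomial σ k) (b : σ → MvPolynomial σ k), (∀ j, a j ∈ Mx k σ m) ∧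
        (∀ l, b l ∈ Mx k σ m) ∧ ∀ j, aeval ψ h * w * c j =
          a j * aeval ψ (f j) + ∑ l, b l * aeval ψ (pderiv l (f j)) := by
    intro w hw
    rw [pow_add] at hw
    refine Submodule.mul_induction_on (C := fun w => ∀ c : ι → MvPolynomial σ k,
      ∃ (a : ι → MvPolynomial σ k) (b : σ → MvPolynomial σ k), (∀ j, a j ∈ Mx k σ m) ∧
        (∀ l, b l ∈ Mx k σ m) ∧ ∀ j, aeval ψ h * w * c j =
          a j * aeval ψ (f j) + ∑ l, b l * aeval ψ (pderiv l (f j))) hw
      (fun x hx y hy c => ?_) (fun x y h3 h4 c => ?_)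
    · obtain ⟨a, b, h3⟩ := Gd.pow hA hx c
      refine ⟨fun j => a j * y, fun l => b l * y,
        fun j => Ideal.mul_mem_left _ _ (ham m hy), fun l => Ideal.mul_mem_left _ _ (ham m hy),
        fun j => ?_⟩
      have h4 : aeval ψ h * (x * y) * c j = aeval ψ h * x * c j * y := by ring
      rw [h4, h3, add_mul, Finset.sum_mul]
      congr 1
      · ring
      · exact Finset.sum_congr rfl fun l _ => by ring
    · obtain ⟨a, b, h5, h6, h7⟩ := h3 c
      obtain ⟨a', b', h8, h9, h10⟩ := h4 c
      refine ⟨fun j => a j + a' j, fun l => b l + b' l, fun j => Ideal.add_mem _ (h5 j) (h8 j),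
        fun l => Ideal.add_mem _ (h6 l) (h9 l), fun j => ?_⟩
      have h11 : aeval ψ h * (x + y) * c j = aeval ψ h * x * c j + aeval ψ h * y * c j := by ring
      rw [h11, h7, h10, add_mul]
      simp only [add_mul, Finset.sum_add_distrib]
      ring
  -- (iii)
  have h3 : ∀ j, ∃ w ∈ 𝔞 ^ (K + m), ∃ s ∈ Mx k σ (K + m + 1), w + s = r j := fun j =>
    Submodule.mem_sup.1 (hG k σ p ψ hψ (K + m) (hr j))
  choose w hw s hs hws using h3
  have h4 := fun i : ι => h2 (w i) (hw i) (fun j => if j = i then 1 else 0)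
  choose a b ha hb hab using h4
  set A : ι → MvPolynomial σ k := fun j => ∑ i, a i j with hAdef
  set B : σ → MvPolynomial σ k := fun l => ∑ i, b i l with hBdef
  have hAm : ∀ j, A j ∈ Mx k σ m := fun j => Ideal.sum_mem _ fun i _ => ha i j
  have hBm : ∀ l, B l ∈ Mx k σ m := fun l => Ideal.sum_mem _ fun i _ => hb i l
  have hAB : ∀ j, aeval ψ h * w j = A j * aeval ψ (f j) + ∑ l, B l * aeval ψ (pderiv l (f j)) := by
    intro j
    have h5 : aeval ψ h * w j = ∑ i, aeval ψ h * w i * (if j = i then 1 else 0) := by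
      rw [Finset.sum_eq_single j]
      · rw [if_pos rfl, mul_one]
      · intro i _ hi
        rw [if_neg (Ne.symm hi), mul_zero]
      · intro hj
        exact absurd (Finset.mem_univ _) hj
    rw [h5, Finset.sum_congr rfl fun i _ => hab i j, Finset.sum_add_distrib, ← Finset.sum_mul,
      Finset.sum_comm]
    congr 1
    refine Finset.sum_congr rfl fun l _ => ?_
    rw [← Finset.sum_mul]
  set η : k := eval p h with hη
  have hη0 : η ≠ 0 := hA.2.1
  have hcc : constantCoeff (aeval ψ h) = η := by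
    have h5 : (constantCoeff.comp (aeval ψ : MvPolynomial σ k →ₐ[k] MvPolynomial σ k).toRingHom) =
        (eval p : MvPolynomial σ k →+* k) := by
      refine MvPolynomial.ringHom_ext (fun c => ?_) (fun l => ?_)
      · simp
      · simp only [RingHom.comp_apply, AlgHom.toRingHom_eq_coe, RingHom.coe_coe, aeval_X, eval_X]
        exact hψ.1 l
    exact RingHom.congr_fun h5 h
  have h1 : aeval ψ h - C η ∈ Mx k σ 1 := by
    refine (hM4 _).2 ?_
    rw [map_sub, hcc, constantCoeff_C, sub_self]
  refine ⟨fun j => C η⁻¹ * A j, fun l => C η⁻¹ * B l, fun j => Ideal.mul_mem_left _ _ (hAm j),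
    fun l => Ideal.mul_mem_left _ _ (hBm l), fun j => ?_⟩
  have h5 : C η⁻¹ * A j * aeval ψ (f j) + ∑ l, C η⁻¹ * B l * aeval ψ (pderiv l (f j)) =
      C η⁻¹ * (aeval ψ h * w j) := by
    rw [hAB, mul_add]
    congr 1
    · exact mul_assoc _ _ _
    · rw [Finset.mul_sum]
      exact Finset.sum_congr rfl fun l _ => mul_assoc _ _ _
  rw [h5]
  have h6 : (C η⁻¹ : MvPolynomial σ k) * C η = 1 := by
    rw [← C_mul, inv_mul_cancel₀ hη0, C_1]
  have h7 : r j - C η⁻¹ * (aeval ψ h * w j) =
      -(C η⁻¹) * ((aeval ψ h - C η) * r j) + C η⁻¹ * aeval ψ h * s j := by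
    have h8 : w j = r j - s j := by rw [← hws j]; ring
    rw [h8]
    linear_combination (-(r j)) * h6
  rw [h7]
  refine Ideal.add_mem _ (Ideal.mul_mem_left _ _ ?_) (Ideal.mul_mem_left _ _ (hs j))
  have h8 := hM1 1 (K + m) _ _ h1 (hr j)
  rwa [add_comm 1 (K + m)] at h8

end Pool.Agent.ISO.H22
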