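import Pool.Agent.Helper22_ISO.DMX
import Pool.Agent.Helper22_ISO.DST
import Pool.Agent.Helper22_ISO.DNW
import Pool.Agent.Helper14_ISO.DIM
import Pool.Agent.Helper76_ISO.DRK
import Pool.Agent.Helper51_ISO.DNU
import Pool.Agent.Helper50_ISO.DES
import Pool.Agent.Helper93_ISO.DNL
import Pool.Agent.Helper64_ISO.DTY
import Pool.Agent.Helper50_ISO.DGR
import Pool.Agent.Helper35_ISO.DET

/-! # Squad ISO, block D: `DetStmt` without hypotheses -/

set_option autoImplicit false

namespace Pool.Agent.ISO.H22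

theorem detAll : DetStmt :=
  H35.det (H93.dnl H14.dim (H51.dnu H14.dim (H76.drk H14.dim)) H50.des)
    (dnw dmx (H64.dty dmx) (dst H14.dim dmx (H50.dgr dmx)))

end Pool.Agent.ISO.H22
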